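import Pool.Agent.V1135.CASEx

/-!
# A continuous association scheme whose partition map admits no scheme with (T2)
-/

set_option autoImplicit false

namespace Pool.Agent.Results.MP_466bd8_al.SamePartition

open MeasureTheory Pool.Agent.V1135.CAS Pool.Agent.V1135.CASEx

theorem result : ∃ C : CAS (ℝ × ℝ) (ℝ × ℝ), C.T1 ∧
    ∀ C' : CAS (ℝ × ℝ) (ℝ × ℝ), C'.π = C.π → ¬ C'.T2 :=
  ⟨CG, CG_T1, fun C' h => not_T2 C' h⟩

end Pool.Agent.Results.MP_466bd8_al.SamePartition
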